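import Mathlib
import Pool.Agent.K1H98.CU.Data2

/-!
# A better lower bound for the odd independence number of hypercubes

For every `r` and every even `d ≥ 12 · 2 ^ r`, `α_od(Q_d) ≥ (1 - 3 / 2 ^ (r + 5)) 2 ^ (d - 1)`.

For `12 · 2 ^ r ≤ d < 16 · 2 ^ r` this is larger than the bound `(1 - 2 ^ (-⌊log₂ d⌋)) 2 ^ (d - 1)` of the starting file
`OddIndepBounds`, which is `(1 - 4 / 2 ^ (r + 5)) 2 ^ (d - 1)` there; so that bound (sharp for `d` a power of two) is not
sharp for infinitely many `d`, the first found being `d = 12`.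

The proof: for the set `h` of the twelve elements `0, e₁, …, e₁₀, e₁ + ⋯ + e₁₀` of `𝔽₂¹⁰` there is a set `A` of 96
elements such that every element is a sum `a + b`, `a ∈ A`, `b ∈ h`, in an odd number of ways (found by computer, checked
by the kernel); `A` is pulled back to the cube by a linear map.
-/

set_option autoImplicit false

open Pool.Agent.R47.OddCube

namespace Pool.Agent.Results.MP_5d7181_co.BetterLowerBound

theorem result (r d : ℕ) (hd : Even d) (hdr : 12 * 2 ^ r ≤ d) :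
    (1 - 3 / (2 : ℝ) ^ (r + 5)) * 2 ^ (d - 1) ≤ (alphaOd (cube d) : ℝ) := by
  have h1 := Pool.Agent.K1H98.CU.boundTwelve r d hd hdr
  have hr : r < 2 ^ r := Nat.lt_two_pow_self
  have h96 : 96 ≤ 2 ^ (10 + r) := by
    rw [pow_add]
    omega
  have h3 : (((2 ^ (10 + r) - 96) * 2 ^ (d - 1 - (10 + r)) : ℕ) : ℝ) ≤ (alphaOd (cube d) : ℝ) := by
    exact_mod_cast h1
  rw [Nat.cast_mul, Nat.cast_sub h96] at h3
  push_cast at h3
  refine le_trans (le_of_eq ?_) h3
  have h5 : (2 : ℝ) ^ (d - 1) = 2 ^ (r + 5) * 32 * 2 ^ (d - 1 - (10 + r)) := by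
    have : (32 : ℝ) = 2 ^ 5 := by norm_num
    rw [this, ← pow_add, ← pow_add]
    congr 1
    omega
  have h6 : (2 : ℝ) ^ (10 + r) = 2 ^ (r + 5) * 32 := by
    have : (32 : ℝ) = 2 ^ 5 := by norm_num
    rw [this, ← pow_add]
    congr 1
    omega
  rw [h5, h6]
  have h7 : (2 : ℝ) ^ (r + 5) ≠ 0 := by positivity
  field_simp
  ring

end Pool.Agent.Results.MP_5d7181_co.BetterLowerBound
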